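import Pool.Agent.helper23.F2.Spec

set_option autoImplicit false

open scoped BigOperators

namespace Pool.Agent.F2

open Pool.Agent.helper23.TH

open Classical

theorem MT5 : MT5_stmt := by
  intro V _ A B β n hA hB hB0 hβ
  set M : Matrix V V ℝ := A ^ n with hM
  have hMt : M.transpose = M := by rw [hM, Matrix.transpose_pow, hA]
  set r : V → ℝ := fun x => ∑ z, M x z ^ 2 with hr
  have hr0 : ∀ x, 0 ≤ r x := fun x => Finset.sum_nonneg fun _ _ => sq_nonneg _
  have h1 : ∀ x y, (A ^ (2 * n)) x y ≤ (r x + r y) / 2 := by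
    intro x y
    have e : (A ^ (2 * n)) x y = ∑ z, M x z * M y z := by
      rw [two_mul, pow_add, ← hM, Matrix.mul_apply]
      refine Finset.sum_congr rfl fun z _ => ?_
      have h2 : M z y = M y z := (congrFun (congrFun hMt z) y).symm
      rw [h2]
    rw [e, hr]
    simp only
    rw [← Finset.sum_add_distrib, Finset.sum_div]
    refine Finset.sum_le_sum fun z _ => ?_
    nlinarith [sq_nonneg (M x z - M y z)]
  have hsym : ∀ x y, B y x = B x y := fun x y => congrFun (congrFun hB x) y
  have h3 : ∑ x, ∑ y, B x y * ((r x + r y) / 2) = ∑ x, r x * ∑ y, B x y := by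
    have e1 : ∑ x, ∑ y, B x y * ((r x + r y) / 2) =
        (∑ x, ∑ y, B x y * r x) / 2 + (∑ x, ∑ y, B x y * r y) / 2 := by
      rw [Finset.sum_div, Finset.sum_div, ← Finset.sum_add_distrib]
      refine Finset.sum_congr rfl fun x _ => ?_
      rw [Finset.sum_div, Finset.sum_div, ← Finset.sum_add_distrib]
      refine Finset.sum_congr rfl fun y _ => ?_
      ring
    have e2 : ∑ x, ∑ y, B x y * r y = ∑ x, ∑ y, B x y * r x := by
      rw [Finset.sum_comm]
      refine Finset.sum_congr rfl fun x _ => Finset.sum_congr rfl fun y _ => ?_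
      rw [hsym x y]
    have e3 : ∑ x, ∑ y, B x y * r x = ∑ x, r x * ∑ y, B x y := by
      refine Finset.sum_congr rfl fun x _ => ?_
      rw [Finset.mul_sum]
      exact Finset.sum_congr rfl fun y _ => mul_comm _ _
    rw [e1, e2, e3]
    ring
  calc ∑ x, ∑ y, B x y * (A ^ (2 * n)) x y ≤ ∑ x, ∑ y, B x y * ((r x + r y) / 2) :=
        Finset.sum_le_sum fun x _ => Finset.sum_le_sum fun y _ =>
          mul_le_mul_of_nonneg_left (h1 x y) (hB0 x y)
    _ = ∑ x, r x * ∑ y, B x y := h3
    _ ≤ ∑ x, r x * β := Finset.sum_le_sum fun x _ => mul_le_mul_of_nonneg_left (hβ x) (hr0 x)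
    _ = β * nsq M := by
        rw [← Finset.sum_mul, mul_comm]
        rfl

end Pool.Agent.F2
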